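import Pool.Agent.H2.GA.Abs
import Pool.Agent.H2.L.R_pool_sql_team_seeded_b0a926ef.R765.Ga11
import Pool.Agent.H2.L.R_seed8.H921R2.TatePole.Dedekind

/-!
# The order of vanishing of the `L`-function of an abelian variety and Gaussian sums of Frobenius traces

Let `A` be an abelian variety of dimension `g` over a number field `K`, embedded in a projective space and given
there by homogeneous polynomials with coefficients in `𝓞 K`, `S` a finite set of primes, and for `v ∉ S` let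
`α_{v,1}, …, α_{v,2g}` be the Weil numbers, `|α_{v,j}| = √q_v`, with `#A(κ) = ∏_j (1 - α_{v,j}^e)` for the
extensions `κ` of degree `e` of the residue field `k_v` (Weil: they exist if `S` contains the primes of bad
reduction and the bad primes of the equations). Let

`L(s) = ∏_{v ∉ S} ∏_j (1 - α_{v,j} q_v^{-s})⁻¹`, `Re s > 3/2`,

be the `L`-function of `A` without its Euler factors at the `v ∈ S`, which have neither zeros nor poles at `s = 1`.
NOTHING IS ASSUMED ON THE CONTINUATION OF `L(s)`. For real `b` and `T > 0` put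

`g_b(T) = (π T)^(-1/2) ∑_{v ∉ S, k ≥ 1} (α_{v,1}^k + … + α_{v,2g}^k) (log q_v) q_v^{bk} exp (-(log q_v^k)² / (4T))`.

Let `R(b, c)` be the interior `Re (s + b) > 0`, `Re (s + b)² > c` of a branch of a hyperbola; it contains `s = 1` if
`b > -1` and `c < (1 + b)²`, and then also the interval `[1, ∞)` and the sector `|Im s| ≤ Re s - 1`.

(2) Criterion: for `c ≥ 0`, a finite set `J` of complex numbers `β` with `Re (β + b) > 0` and `m : J → ℕ` the
function `L(s)` has an analytic continuation to `R(b, c)` with the orders of vanishing `m(β)` at the `β ∈ J` and no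
other zeros if and only if `g_b(T) = - 2 ∑_β m(β) exp ((β + b)² T) + O(exp ((c + ε) T))` for all `ε > 0`.

(3) Let `b > -1`. There is an analytic continuation of `L(s)` to some `R(b, c)`, `c < (1 + b)²`, with
`ord_{s=1} L(s) = r` if and only if `exp (-(1 + b)² T) g_b(T)` is, up to an error `O(exp (-δT))`, the sum of the
CONSTANT `-2r` and of finitely many terms `-2 m(w) exp (wT)` with `w ≠ 0`, `m(w) ∈ ℕ`. The number `r` does not
depend on `b`.

(4) There is a continuation as in (3) without zeros `s ≠ 1` in `R(b, c)` for some `c < (1 + b)²` if and only if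
`exp (-(1 + b)² T) g_b(T) = -2r + O(exp (-δT))`.

(5) `L(s)` extends to an ENTIRE function with `ord_{s=1} L(s) = r` if and only if for all `b > -1` and `ε > 0` (or,
for one `κ < 1` and arbitrarily large `b`, with `κ b²` for `ε`)
`g_b(T) = - 2 r exp ((1 + b)² T) - 2 ∑_{β ∈ J} m(β) exp ((β + b)² T) + O(exp (εT))` with a finite `J`, `1 ∉ J`.

With `r = rank A(K)` the assertion of Q1 for `A`, including the continuation of `L(s, A)`, is by (3) or (5) a
statement on the numbers of points of `A` over the residue fields: the constant term of these Gaussian sums is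
`-2 rank A(K)`.

The analysis is in `Pool.Agent.H2.GA.Abs` and in the library modules `R765.Ga`, `R765.Mer`.
-/

set_option autoImplicit false

namespace Pool.Agent.Results.MP_1d384c_nt.GaussianLaw

open Filter Topology NumberField IsDedekindDomain

variable {K : Type} [Field K] [NumberField K] {n g : ℕ}

/-- The norm `q_v`. -/
noncomputable def norm (v : HeightOneSpectrum (𝓞 K)) : ℕ := Ideal.absNorm v.asIdeal

/-- The set `X` of homogeneous polynomials over a ring `R` in `n` variables defines a projective scheme over `R`. For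
a field `κ` with `q` elements and a homomorphism `R → κ` this is `(q - 1)` times the number of the points of `X` with
coordinates in `κ`: the number of the nonzero solutions of the equations. -/
noncomputable def cone {R : Type} [CommRing R] (X : Set (MvPolynomial (Fin n) R)) {κ : Type}
    [Field κ] (φ : R →+* κ) : ℕ :=
  Nat.card {u : Fin n → κ // u ≠ 0 ∧ ∀ f ∈ X, MvPolynomial.eval₂ φ u f = 0}

/-- For every prime `v` outside of `S` the numbers `α v j` are the Frobenius eigenvalues at `v` of the abelian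
variety `X` of dimension `g`: they have the absolute value `√q_v`, and for every finite extension `κ` of the residue
field of `v`, of degree `e`, the number of the points of `X` with coordinates in `κ` is `∏_j (1 - α_j^e)`. -/
def IsWeil (X : Set (MvPolynomial (Fin n) (𝓞 K))) (g : ℕ) (S : Finset (HeightOneSpectrum (𝓞 K)))
    (α : HeightOneSpectrum (𝓞 K) → Fin (2 * g) → ℂ) : Prop :=
  ∀ v : HeightOneSpectrum (𝓞 K), v ∉ S → (∀ j, ‖α v j‖ = √(norm v : ℝ)) ∧
    ∀ (κ : Type) [Field κ] [Finite κ] (φ : 𝓞 K →+* κ) (e : ℕ), RingHom.ker φ = v.asIdeal →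
      Nat.card κ = norm v ^ e → (cone X φ : ℂ) = ((norm v : ℂ) ^ e - 1) * ∏ j, (1 - α v j ^ e)

/-- The Euler product `L(s) = ∏_{v ∉ S} ∏_j (1 - α_{v,j} q_v^{-s})⁻¹` (for `Re s > 3/2`). -/
noncomputable def L (S : Finset (HeightOneSpectrum (𝓞 K)))
    (α : HeightOneSpectrum (𝓞 K) → Fin (2 * g) → ℂ) (s : ℂ) : ℂ :=
  ∏' v : {v : HeightOneSpectrum (𝓞 K) // v ∉ S}, (∏ j, (1 - α v.1 j * (norm v.1 : ℂ) ^ (-s)))⁻¹

/-- The term of `g_b(T)` for the prime `v = x.1` and `k = x.2 + 1`, without the factor `(π T)^(-1/2)`: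
`(∑_j α_{v,j}^k) (log q_v) q_v^{bk} exp (-(k log q_v)² / (4T))`. -/
noncomputable def term (S : Finset (HeightOneSpectrum (𝓞 K)))
    (α : HeightOneSpectrum (𝓞 K) → Fin (2 * g) → ℂ) (b T : ℝ)
    (x : {v : HeightOneSpectrum (𝓞 K) // v ∉ S} × ℕ) : ℂ :=
  (∑ j, α x.1 j ^ (x.2 + 1)) * (Real.log (norm x.1.1) : ℂ) *
    (((norm x.1.1 : ℝ) ^ (b * ((x.2 : ℝ) + 1)) *
      Real.exp (-((((x.2 : ℝ) + 1) * Real.log (norm x.1.1)) ^ 2 / (4 * T))) : ℝ) : ℂ)

/-- The Gaussian sum `g_b(T)` of the traces of the powers of the Frobenius elements. -/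
noncomputable def gauss (S : Finset (HeightOneSpectrum (𝓞 K)))
    (α : HeightOneSpectrum (𝓞 K) → Fin (2 * g) → ℂ) (b T : ℝ) : ℂ :=
  (Real.sqrt (Real.pi * T) : ℂ)⁻¹ * ∑' x, term S α b T x

/-- The region `Re (s + b) > 0`, `Re (s + b)² > c`. -/
def Region (b c : ℝ) : Set ℂ := {s | 0 < (s + b).re ∧ c < ((s + b) ^ 2).re}

/-- `F` is an analytic continuation of the Euler product to `Region b c` (together with `Re s > 3/2`). -/
def IsContinuation (S : Finset (HeightOneSpectrum (𝓞 K)))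
    (α : HeightOneSpectrum (𝓞 K) → Fin (2 * g) → ℂ) (b c : ℝ) (F : ℂ → ℂ) : Prop :=
  (∀ s : ℂ, s ∈ Region b c ∨ 3 / 2 < s.re → AnalyticAt ℂ F s) ∧ ∀ s : ℂ, 3 / 2 < s.re → F s = L S α s

/-- There is an analytic continuation of `L(s)` to some `Region b c` which contains `s = 1`, of order `r` at `1`. -/
def HasOrder (S : Finset (HeightOneSpectrum (𝓞 K)))
    (α : HeightOneSpectrum (𝓞 K) → Fin (2 * g) → ℂ) (b : ℝ) (r : ℕ) : Prop :=
  ∃ c : ℝ, c < (1 + b) ^ 2 ∧ ∃ F : ℂ → ℂ, IsContinuation S α b c F ∧ analyticOrderAt F 1 = (r : ℕ∞)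

/-- `exp (-(1 + b)² T) g_b(T) = -2r - 2 ∑_{w ∈ W} m(w) exp (wT) + O(exp (-δT))` for a finite set `W` of nonzero
complex numbers, natural numbers `m(w)` and some `δ > 0`. -/
def ConstantTerm (S : Finset (HeightOneSpectrum (𝓞 K)))
    (α : HeightOneSpectrum (𝓞 K) → Fin (2 * g) → ℂ) (b : ℝ) (r : ℕ) : Prop :=
  ∃ (W : Finset ℂ) (m : ℂ → ℕ) (δ C : ℝ), 0 ∉ W ∧ 0 < δ ∧ ∀ᶠ T : ℝ in atTop,
    ‖(Real.exp (-((1 + b) ^ 2 * T)) : ℂ) * gauss S α b T + 2 * r +
      2 * ∑ w ∈ W, (m w : ℂ) * Complex.exp (w * T)‖ ≤ C * Real.exp (-(δ * T))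

/-- `g_b(T) = - 2 r exp ((1 + b)² T) - 2 ∑_{β ∈ J} m(β) exp ((β + b)² T) + O(exp (ηT))` for a finite set `J` of
complex numbers `β ≠ 1` with `Re (β + b) > 0` and natural numbers `m(β)`. -/
def Expansion (S : Finset (HeightOneSpectrum (𝓞 K)))
    (α : HeightOneSpectrum (𝓞 K) → Fin (2 * g) → ℂ) (b η : ℝ) (r : ℕ) : Prop :=
  ∃ (J : Finset ℂ) (m : ℂ → ℕ) (C : ℝ), (∀ β ∈ J, 0 < (β + b).re ∧ β ≠ 1) ∧ ∀ᶠ T : ℝ in atTop,
    ‖gauss S α b T + 2 * r * Complex.exp ((1 + b) ^ 2 * T) +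
      2 * ∑ β ∈ J, (m β : ℂ) * Complex.exp ((β + b) ^ 2 * T)‖ ≤ C * Real.exp (η * T)

open Pool.Agent.R765.Ga hiding lamE cE Bd DD_E LEu LEu_deriv two_le_p log_pos_p
open Pool.Agent.W334.BSD
open Pool.Agent.R765.Ga.X (Nm lamE cE Bd DD_E LEu LEu_deriv)
open Pool.Agent.H921R2.TatePole (nm two_le_nm nm_summable)
open Pool.Agent.H2.GA

instance countable_primes : Countable (HeightOneSpectrum (𝓞 K)) := by
  have h := (nm_summable (K := K) (one_lt_two (α := ℝ))).countable_support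
  have h2 : (Function.support fun v : HeightOneSpectrum (𝓞 K) => (nm v : ℝ) ^ (-(2 : ℝ))) =
      Set.univ := by
    ext v
    simp only [Function.mem_support, Set.mem_univ, iff_true]
    have : 0 < (nm v : ℝ) := by
      have := two_le_nm v
      exact_mod_cast (by omega : 0 < nm v)
    exact (Real.rpow_pos_of_pos this _).ne'
  rw [h2] at h
  exact Set.countable_univ_iff.1 h

variable {S : Finset (HeightOneSpectrum (𝓞 K))} {α : HeightOneSpectrum (𝓞 K) → Fin (2 * g) → ℂ}

/-- the norms -/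
noncomputable def NS (S : Finset (HeightOneSpectrum (𝓞 K)))
    (v : {v : HeightOneSpectrum (𝓞 K) // v ∉ S}) : ℕ := nm v.1

/-- the matrices -/
noncomputable def MS (S : Finset (HeightOneSpectrum (𝓞 K)))
    (α : HeightOneSpectrum (𝓞 K) → Fin (2 * g) → ℂ) (v : {v : HeightOneSpectrum (𝓞 K) // v ∉ S}) :
    Matrix (Fin (2 * g)) (Fin (2 * g)) ℂ := Matrix.diagonal (α v.1)

lemma hN : Nm (NS S) where
  two := fun v => two_le_nm v.1
  sum := fun _ hs => (nm_summable hs).comp_injective Subtype.val_injective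

lemma charpoly_diag (a : Fin (2 * g) → ℂ) :
    (Matrix.diagonal a).charpoly = ∏ j, (Polynomial.X - Polynomial.C (a j)) := by
  unfold Matrix.charpoly Matrix.charmatrix
  have : Matrix.scalar (Fin (2 * g)) (Polynomial.X : Polynomial ℂ) -
      (Polynomial.C : ℂ →+* Polynomial ℂ).mapMatrix (Matrix.diagonal a) =
      Matrix.diagonal fun j => (Polynomial.X - Polynomial.C (a j)) := by
    ext i j
    by_cases h : i = j
    · subst h
      simp
    · simp [h]
  rw [this, Matrix.det_diagonal]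

lemma hM {X : Set (MvPolynomial (Fin n) (𝓞 K))} (hX : IsWeil X g S α) :
    Bd (NS S) (MS S α) (1 / 2) := by
  intro v a ha
  have h1 : (MS S α v).charpoly.IsRoot a := (Polynomial.mem_roots'.1 ha).2
  unfold MS at h1
  rw [charpoly_diag, Polynomial.IsRoot.def, Polynomial.eval_prod, Finset.prod_eq_zero_iff] at h1
  obtain ⟨j, -, h2⟩ := h1
  rw [Polynomial.eval_sub, Polynomial.eval_X, Polynomial.eval_C, sub_eq_zero] at h2
  rw [h2, (hX v.1 v.2).1 j, Real.sqrt_eq_rpow]
  exact le_of_eq rfl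

lemma L_eq (s : ℂ) : L S α s = LEu (NS S) (MS S α) s := by
  unfold L LEu
  refine tprod_congr fun v => ?_
  have e : (1 : Matrix (Fin (2 * g)) (Fin (2 * g)) ℂ) - ((NS S v : ℕ) : ℂ) ^ (-s) • MS S α v =
      Matrix.diagonal fun j => 1 - α v.1 j * (norm v.1 : ℂ) ^ (-s) := by
    unfold MS
    ext i j
    by_cases h : i = j
    · subst h
      simp only [Matrix.sub_apply, Matrix.one_apply_eq, Matrix.smul_apply,
        Matrix.diagonal_apply_eq, smul_eq_mul]
      rw [mul_comm]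
      rfl
    · simp [h]
  rw [e, Matrix.det_diagonal]

lemma L_deriv {X : Set (MvPolynomial (Fin n) (𝓞 K))} (hX : IsWeil X g S α) {s : ℂ}
    (hs : 3 / 2 < s.re) :
    HasDerivAt (L S α) (-(ser (lamE (NS S)) (cE (NS S) (MS S α)) s * L S α s)) s ∧
      L S α s ≠ 0 := by
  have h := LEu_deriv (hN (S := S)) (hM hX) (s := s) (by linarith)
  rw [← L_eq] at h
  have e : L S α = LEu (NS S) (MS S α) := funext L_eq
  rw [← e] at h
  exact h

lemma term_eq (b T : ℝ) (x : {v : HeightOneSpectrum (𝓞 K) // v ∉ S} × ℕ) :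
    (Real.sqrt (Real.pi * T) : ℂ)⁻¹ * term S α b T x =
      tw (lamE (NS S)) (cE (NS S) (MS S α)) b x * (gker (lamE (NS S) x) T : ℂ) := by
  unfold term tw cE lamE gker
  have hp : (0 : ℝ) < (NS S x.1 : ℝ) := by
    have : 2 ≤ NS S x.1 := two_le_nm x.1.1
    have : (2 : ℝ) ≤ (NS S x.1 : ℝ) := by exact_mod_cast this
    linarith
  have e0 : ((norm x.1.1 : ℕ) : ℝ) = (NS S x.1 : ℝ) := rfl
  have e1 : (NS S x.1 : ℝ) ^ (b * ((x.2 : ℝ) + 1)) =
      Real.exp (b * (((x.2 : ℝ) + 1) * Real.log (NS S x.1))) := by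
    rw [Real.rpow_def_of_pos hp]
    congr 1
    ring
  have e2 : (MS S α x.1 ^ (x.2 + 1)).trace = ∑ j, α x.1 j ^ (x.2 + 1) := by
    unfold MS
    rw [Matrix.diagonal_pow, Matrix.trace_diagonal]
    rfl
  rw [e0, e1, e2, Complex.ofReal_mul, Complex.ofReal_div]
  ring

lemma gauss_eq (b T : ℝ) : gauss S α b T =
    kG (lamE (NS S)) (tw (lamE (NS S)) (cE (NS S) (MS S α)) b) T := by
  unfold gauss kG
  rw [← tsum_mul_left]
  exact tsum_congr fun x => term_eq b T x

lemma term_summable {X : Set (MvPolynomial (Fin n) (𝓞 K))} (hX : IsWeil X g S α) (b : ℝ) {T : ℝ}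
    (hT : 0 < T) : Summable fun x => ‖term S α b T x‖ := by
  have D := (DD_E (hN (S := S)) (hM hX)).shift b
  have h1 := (D.sum (1 + 1 / 2 + b + 1) (by linarith)).mul_right
    (2 / Real.log 2 * Real.exp (2 * (1 + 1 / 2 + b + 1) ^ 2 * T))
  have h2 : Summable fun x => ‖(Real.sqrt (Real.pi * T) : ℂ)⁻¹ * term S α b T x‖ := by
    refine Summable.of_nonneg_of_le (fun x => norm_nonneg _) (fun x => ?_) h1
    rw [term_eq]
    exact term_le D (1 + 1 / 2 + b + 1) T x
  have hsq : 0 < Real.sqrt (Real.pi * T) := Real.sqrt_pos.2 (by positivity)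
  refine (h2.mul_left (Real.sqrt (Real.pi * T))).congr fun x => ?_
  rw [norm_mul, norm_inv, Complex.norm_real, Real.norm_of_nonneg hsq.le]
  field_simp

lemma half_eq : (1 : ℝ) + 1 / 2 = 3 / 2 := by norm_num

lemma cont_iff {b c : ℝ} {F : ℂ → ℂ} : IsContinuation S α b c F ↔ IsCont (L S α) (3 / 2) b c F :=
  Iff.rfl

/-- the order does not depend on `b` -/
lemma order_unique {b b' : ℝ} (hb : -1 < b) (hb' : -1 < b') {r r' : ℕ}
    (h : HasOrder S α b r) (h' : HasOrder S α b' r') : r = r' := by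
  obtain ⟨c, hc, F, hF, hr⟩ := h
  obtain ⟨c', hc', F', hF', hr'⟩ := h'
  have p1 : 0 < (1 + b) ^ 2 := by
    have : 0 < 1 + b := by linarith
    positivity
  have p2 : 0 < (1 + b') ^ 2 := by
    have : 0 < 1 + b' := by linarith
    positivity
  have hF1 := (cont_iff.1 hF).mono (le_max_left c 0)
  have hF1' := (cont_iff.1 hF').mono (le_max_left c' 0)
  set U : Set ℂ := Rb b (max c 0) ∩ Rb b' (max c' 0) with hU
  have hUo : IsOpen U := (Rb_open _ _).inter (Rb_open _ _)
  have hUc : IsPreconnected U :=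
    ((Rb_convex b (le_max_right _ _)).inter (Rb_convex b' (le_max_right _ _))).isPreconnected
  have h1 : (1 : ℂ) ∈ U := ⟨one_mem hb (max_lt hc p1), one_mem hb' (max_lt hc' p2)⟩
  have h2 : (1 : ℂ) + (1 : ℝ) ∈ U := ⟨Rb_add b h1.1 zero_le_one, Rb_add b' h1.2 zero_le_one⟩
  have ho : IsOpen {z : ℂ | 3 / 2 < z.re} := isOpen_lt continuous_const Complex.continuous_re
  have h3 : (1 : ℂ) + (1 : ℝ) ∈ {z : ℂ | 3 / 2 < z.re} := by
    change 3 / 2 < ((1 : ℂ) + (1 : ℝ)).re
    rw [Complex.add_re, Complex.one_re, Complex.ofReal_re]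
    norm_num
  have hA : AnalyticOnNhd ℂ F U := fun z hz => hF1.1 z (Or.inl hz.1)
  have hB : AnalyticOnNhd ℂ F' U := fun z hz => hF1'.1 z (Or.inl hz.2)
  have heq : F =ᶠ[𝓝 ((1 : ℂ) + (1 : ℝ))] F' := by
    filter_upwards [ho.mem_nhds h3] with z hz
    rw [hF1.2 z hz, hF1'.2 z hz]
  have h4 := hA.eqOn_of_preconnected_of_eventuallyEq hB hUc h2 heq
  have h5 : F =ᶠ[𝓝 1] F' := by
    filter_upwards [hUo.mem_nhds h1] with z hz
    exact h4 hz
  have h6 := analyticOrderAt_congr h5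
  rw [hr, hr'] at h6
  exact_mod_cast h6

/-- **The order of vanishing at `s = 1` of the `L`-function of an abelian variety and the Gaussian sums of the
traces of Frobenius; nothing is assumed on the `L`-function.** -/
theorem result (K : Type) [Field K] [NumberField K] (n g : ℕ)
    (X : Set (MvPolynomial (Fin n) (𝓞 K))) (S : Finset (HeightOneSpectrum (𝓞 K)))
    (α : HeightOneSpectrum (𝓞 K) → Fin (2 * g) → ℂ) (hX : IsWeil X g S α) :
    (∀ b T : ℝ, 0 < T → Summable fun x => ‖term S α b T x‖) ∧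
    (∀ (b c : ℝ) (J : Finset ℂ) (m : ℂ → ℕ), 0 ≤ c → (∀ β ∈ J, 0 < (β + b).re) →
      ((∃ F : ℂ → ℂ, IsContinuation S α b c F ∧
        (∀ s ∈ Region b c, s ∈ J → analyticOrderAt F s = (m s : ℕ∞)) ∧
        ∀ s ∈ Region b c, s ∉ J → F s ≠ 0) ↔
      ∀ ε : ℝ, 0 < ε → ∃ C : ℝ, ∀ᶠ T : ℝ in atTop,
        ‖gauss S α b T + 2 * ∑ β ∈ J, (m β : ℂ) * Complex.exp ((β + b) ^ 2 * T)‖ ≤
          C * Real.exp ((c + ε) * T))) ∧
    (∀ b : ℝ, -1 < b → ∀ r : ℕ, HasOrder S α b r ↔ ConstantTerm S α b r) ∧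
    (∀ b b' : ℝ, -1 < b → -1 < b' → ∀ r r' : ℕ, HasOrder S α b r → HasOrder S α b' r' → r = r') ∧
    (∀ b : ℝ, -1 < b → ∀ r : ℕ,
      ((∃ c : ℝ, c < (1 + b) ^ 2 ∧ ∃ F : ℂ → ℂ, IsContinuation S α b c F ∧
        analyticOrderAt F 1 = (r : ℕ∞) ∧ ∀ s ∈ Region b c, s ≠ 1 → F s ≠ 0) ↔
      ∃ δ C : ℝ, 0 < δ ∧ ∀ᶠ T : ℝ in atTop,
        ‖(Real.exp (-((1 + b) ^ 2 * T)) : ℂ) * gauss S α b T + 2 * r‖ ≤
          C * Real.exp (-(δ * T)))) ∧
    ∀ r : ℕ, List.TFAE [
      ∃ F : ℂ → ℂ, Differentiable ℂ F ∧ (∀ s : ℂ, 3 / 2 < s.re → F s = L S α s) ∧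
        analyticOrderAt F 1 = (r : ℕ∞),
      ∀ b ε : ℝ, -1 < b → 0 < ε → Expansion S α b ε r,
      ∃ κ : ℝ, κ < 1 ∧ ∀ b₀ : ℝ, ∃ b : ℝ, b₀ ≤ b ∧ Expansion S α b (κ * b ^ 2) r] := by
  classical
  have D := DD_E (hN (S := S)) (hM hX)
  rw [half_eq] at D
  have hLd : ∀ s : ℂ, 3 / 2 < s.re → _ := fun s hs => L_deriv hX hs
  refine ⟨fun b T hT => term_summable hX b hT, fun b c J m hc hJ => ?_, fun b hb r => ?_,
    fun b b' hb hb' r r' h h' => order_unique hb hb' h h', fun b hb r => ?_, fun r => ?_⟩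
  · have key := gauss_an D hLd b hc (m := m) hJ
    simp only [gauss_eq]
    rw [← key]
    refine exists_congr fun F => and_congr_right fun hF => ?_
    constructor
    · rintro ⟨h1, h2⟩ s hs
      split_ifs with h
      · exact h1 s hs h
      · exact (hF.1 s (Or.inl hs)).analyticOrderAt_eq_zero.2 (h2 s hs h)
    · intro h
      refine ⟨fun s hs hsJ => ?_, fun s hs hsJ => ?_⟩
      · rw [h s hs, if_pos hsJ]
      · refine (hF.1 s (Or.inl hs)).analyticOrderAt_eq_zero.1 ?_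
        rw [h s hs, if_neg hsJ]
  · have key := order_cont D hLd hb r
    unfold ConstantTerm
    simp only [gauss_eq]
    exact key
  · have key := order_alone D hLd hb r
    simp only [gauss_eq]
    exact key
  · have key := order_plane D hLd r
    unfold Expansion
    simp only [gauss_eq]
    exact key

end Pool.Agent.Results.MP_1d384c_nt.GaussianLaw
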