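import Pool.Agent.H21.RD.Var

/-!
# The rank conjecture for several abelian varieties and one law for one product

Let `A_i`, `i ∈ ι`, be finitely many abelian varieties over number fields `K_i` (the fields and the
dimensions `g_i` may be different), embedded in projective spaces and given there by homogeneous
polynomials with coefficients in `𝓞 K_i`, and let `S_i` be finite sets of primes such that for `v ∉ S_i`
there are Weil numbers `α_{v,1}, …, α_{v,2g_i}` of absolute value `√q_v` with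
`#A_i(κ) = ∏_j (1 - α_{v,j}^e)` for the extensions `κ` of degree `e` of the residue field `k_v` (by the
theorem of Weil this is so if `S_i` contains the primes of bad reduction and the bad primes of the
equations). Let `P_i(y) = ∏_{v ∉ S_i, q_v ≤ y} #A_i(k_v)/q_v^{g_i}`, let `F_i` be a continuation of the
`L`-function `∏_{v ∉ S_i} ∏_j (1 - α_{v,j} q_v^{-s})⁻¹` that is holomorphic for `Re s > 1` and at `s = 1`,
and `r_i = ord_{s=1} F_i`. Let `w_i` be REAL weights of any signs. The logarithmic mean of the deviation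

`(log Y)⁻¹ ∫_e^Y |∑ w_i log P_i(y) - ρ log log y| dy/y`

of the ONE function `∏ P_i(y)^(w_i)` is considered.  It is shown, with NO hypothesis on the growth of
the `F_i`:

* if the mean is bounded, then `∑ w_i r_i = ρ` and `∑ w_i ord_s F_i = 0` for every `s` with `Re s > 1`;
* the same with the positive part of the deviation gives `∑ w_i r_i ≤ ρ` and `∑ w_i ord_s F_i = 0`, if
  the numbers `∑ w_i ord_s F_i` are nonnegative at the real points `s > 1`;
* let the `w_i` be linearly independent over `ℚ`, and let `R_i` be natural numbers, for example the ranks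
  of the groups `A_i(K_i)`. Then the boundedness for `ρ = ∑ w_i R_i` implies `ord_{s=1} F_i = R_i` and the
  absence of zeros with `Re s > 1` for ALL `i`; if the `F_i` have polynomial growth in half-planes
  `Re s > 1 - η_i`, it is EQUIVALENT to this;
* the boundedness for `log (P_i / P_j)` and `ρ` implies `r_i - r_j = ρ` and that `F_i` and `F_j` have the
  same zeros, with multiplicities, for `Re s > 1`. With `ρ = rank A_i(K_i) - rank A_j(K_j)`: then Q1
  holds for `A_i` if and only if it holds for `A_j`.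

The zeros of different `L`-functions may cancel, so that no `F_i` needs to be free of zeros in the first
two items. For one abelian variety and two-sided bounds see `WindowLawAbelian` (library).
-/

set_option autoImplicit false

namespace Pool.Agent.Results.MP_1d384c_nt.OneLawManyVarieties

open Filter Topology MeasureTheory NumberField IsDedekindDomain

section defs

variable {K : Type} [Field K] [NumberField K] {n g : ℕ}

/-- The norm `q_v`. -/
noncomputable def norm (v : HeightOneSpectrum (𝓞 K)) : ℕ := Ideal.absNorm v.asIdeal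

/-- The set `X` of homogeneous polynomials over a ring `R` in `n` variables defines a projective scheme over `R`. For
a field `κ` with `q` elements and a homomorphism `R → κ` this is `(q - 1)` times the number of the points of `X` with
coordinates in `κ`: the number of the nonzero solutions of the equations. -/
noncomputable def cone {R : Type} [CommRing R] (X : Set (MvPolynomial (Fin n) R)) {κ : Type}
    [Field κ] (φ : R →+* κ) : ℕ :=
  Nat.card {u : Fin n → κ // u ≠ 0 ∧ ∀ f ∈ X, MvPolynomial.eval₂ φ u f = 0}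

/-- For every prime `v` outside of `S` the numbers `α v j` are the Frobenius eigenvalues at `v` of the abelian
variety `X` of dimension `g`: they have the absolute value `√q_v`, and for every finite extension `κ` of the residue
field of `v`, of degree `e`, the number of the points of `X` with coordinates in `κ` is `∏_j (1 - α_j^e)`. -/
def IsWeil (X : Set (MvPolynomial (Fin n) (𝓞 K))) (g : ℕ) (S : Finset (HeightOneSpectrum (𝓞 K)))
    (α : HeightOneSpectrum (𝓞 K) → Fin (2 * g) → ℂ) : Prop :=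
  ∀ v : HeightOneSpectrum (𝓞 K), v ∉ S → (∀ j, ‖α v j‖ = √(norm v : ℝ)) ∧
    ∀ (κ : Type) [Field κ] [Finite κ] (φ : 𝓞 K →+* κ) (e : ℕ), RingHom.ker φ = v.asIdeal →
      Nat.card κ = norm v ^ e → (cone X φ : ℂ) = ((norm v : ℂ) ^ e - 1) * ∏ j, (1 - α v j ^ e)

/-- The number `#X(k_v)` of the points over the residue field `k_v = 𝓞 K / v`: the number of the nonzero
solutions, divided by `q_v - 1`. -/
noncomputable def points (X : Set (MvPolynomial (Fin n) (𝓞 K))) (v : HeightOneSpectrum (𝓞 K)) : ℝ :=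
  (Nat.card {u : Fin n → (𝓞 K ⧸ v.asIdeal) // u ≠ 0 ∧
    ∀ f ∈ X, MvPolynomial.eval₂ (Ideal.Quotient.mk v.asIdeal) u f = 0} : ℝ) / (norm v - 1)

/-- The primes `v` outside of `S` with `q_v ≤ y`. -/
def upTo (S : Finset (HeightOneSpectrum (𝓞 K))) (y : ℝ) : Set (HeightOneSpectrum (𝓞 K)) :=
  {v | v ∉ S ∧ (norm v : ℝ) ≤ y}

/-- `P(y) = ∏_{v ∉ S, q_v ≤ y} #A(k_v)/q_v^g`, a finite product. -/
noncomputable def product (X : Set (MvPolynomial (Fin n) (𝓞 K))) (g : ℕ)
    (S : Finset (HeightOneSpectrum (𝓞 K))) (y : ℝ) : ℝ :=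
  ∏ᶠ v ∈ upTo S y, points X v / (norm v : ℝ) ^ g

/-- `F` continues the `L`-function `∏_{v ∉ S} ∏_j (1 - α_{v,j} q_v^{-s})⁻¹` (`Re s > 3/2`) to a function that is
holomorphic for `Re s > 1` and at `s = 1`. -/
structure IsLSeries (S : Finset (HeightOneSpectrum (𝓞 K)))
    (α : HeightOneSpectrum (𝓞 K) → Fin (2 * g) → ℂ) (F : ℂ → ℂ) : Prop where
  diff : ∀ s : ℂ, 1 < s.re → DifferentiableAt ℂ F s
  one : AnalyticAt ℂ F 1
  prod : ∀ s : ℂ, 3 / 2 < s.re →
    HasProd (fun v : {v : HeightOneSpectrum (𝓞 K) // v ∉ S} =>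
      (∏ j, (1 - α v.1 j * (norm v.1 : ℂ) ^ (-s)))⁻¹) (F s)

/-- `F` has no zeros with `Re s > 1`. -/
def NoZeros (F : ℂ → ℂ) : Prop := ∀ s : ℂ, 1 < s.re → F s ≠ 0

/-- `F` is holomorphic and has polynomial growth in a half-plane `Re s > 1 - η`, `η > 0`. -/
def PolyGrowth (F : ℂ → ℂ) : Prop :=
  ∃ (η C : ℝ) (κ : ℕ), 0 < η ∧ ∀ s : ℂ, 1 - η < s.re →
    DifferentiableAt ℂ F s ∧ ‖F s‖ ≤ C * (1 + ‖s‖) ^ κ

end defs

section family

variable {ι : Type} [Fintype ι] {K : ι → Type} [∀ i, Field (K i)] [∀ i, NumberField (K i)]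
  {n : ι → ℕ}

/-- `∑_i w_i log P_i(y)`, the logarithm of `∏_i P_i(y)^(w_i)` -/
noncomputable def LogP (A : ∀ i, Set (MvPolynomial (Fin (n i)) (𝓞 (K i)))) (g : ι → ℕ)
    (S : ∀ i, Finset (HeightOneSpectrum (𝓞 (K i)))) (w : ι → ℝ) (y : ℝ) : ℝ :=
  ∑ i, w i * Real.log (product (A i) (g i) (S i) y)

/-- `∫_e^Y |∑ w_i log P_i(y) - ρ log log y| dy/y ≤ B log Y` for large `Y` -/
def MeanLaw (A : ∀ i, Set (MvPolynomial (Fin (n i)) (𝓞 (K i)))) (g : ι → ℕ)
    (S : ∀ i, Finset (HeightOneSpectrum (𝓞 (K i)))) (w : ι → ℝ) (ρ : ℝ) : Prop :=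
  ∃ B : ℝ, ∀ᶠ Y : ℝ in atTop, ∫ y in Real.exp 1..Y,
    |LogP A g S w y - ρ * Real.log (Real.log y)| / y ≤ B * Real.log Y

/-- `∫_e^Y (∑ w_i log P_i(y) - ρ log log y)⁺ dy/y ≤ B log Y` for large `Y` -/
def UpperLaw (A : ∀ i, Set (MvPolynomial (Fin (n i)) (𝓞 (K i)))) (g : ι → ℕ)
    (S : ∀ i, Finset (HeightOneSpectrum (𝓞 (K i)))) (w : ι → ℝ) (ρ : ℝ) : Prop :=
  ∃ B : ℝ, ∀ᶠ Y : ℝ in atTop, ∫ y in Real.exp 1..Y,
    max (LogP A g S w y - ρ * Real.log (Real.log y)) 0 / y ≤ B * Real.log Y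

/-- `∑_i w_i ord_s F_i` -/
noncomputable def wt (F : ι → ℂ → ℂ) (w : ι → ℝ) (s : ℂ) : ℝ :=
  ∑ i, w i * (analyticOrderNatAt (F i) s : ℝ)

end family

/-! ### Translation to the definitions of the imported files -/

open Pool.Agent.TH942.ES (cv zv xv Sys)
open Pool.Agent.H921R2.TatePole (nm two_le_nm)
open Pool.Agent.TH270.MS (Mc)
open Pool.Agent.Q5.VA (NS aD Frob)
open Pool.Agent.W5h26.ML Pool.Agent.H21.RD

section translation

variable {K : Type} [Field K] [NumberField K] {n g : ℕ} {X : Set (MvPolynomial (Fin n) (𝓞 K))}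
  {S : Finset (HeightOneSpectrum (𝓞 K))} {α : HeightOneSpectrum (𝓞 K) → Fin (2 * g) → ℂ} {F : ℂ → ℂ}

theorem weil (h : IsWeil X g S α) {v : HeightOneSpectrum (𝓞 K)} (hv : v ∉ S) :
    Pool.Agent.Q5.VA.IsWeil X g v (α v) := h v hv

theorem frob (h : IsWeil X g S α) : Frob X g 1 S α := fun _ hv => (weil h hv).frob

theorem one_eq : (((1 : ℕ) : ℝ) + 1) / 2 = 1 := by norm_num

theorem cv_eq (h : IsWeil X g S α) (v : {v : HeightOneSpectrum (𝓞 K) // v ∉ S}) :
    cv (NS S) (aD 1 S α) v = Real.log (points X v.1 / (norm v.1 : ℝ) ^ g) := by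
  rw [(frob h).cv_eq v, one_eq, Pool.Agent.Q5.VA.norm_prod_factor (weil h v.2),
    ← Pool.Agent.Q5.VA.cone0_eq (weil h v.2)]
  rfl

theorem points_pos (h : IsWeil X g S α) {v : HeightOneSpectrum (𝓞 K)} (hv : v ∉ S) :
    0 < points X v / (norm v : ℝ) ^ g := by
  have hp2 : (2 : ℝ) ≤ norm v := by exact_mod_cast two_le_nm v
  have h1 : points X v = ‖∏ j, (1 - α v j)‖ := Pool.Agent.Q5.VA.cone0_eq (weil h hv)
  have h2 : 0 < ‖∏ j, (1 - α v j)‖ := by
    rw [norm_pos_iff, Finset.prod_ne_zero_iff]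
    intro j _ h3
    have h4 : ‖α v j‖ = √(norm v : ℝ) := (weil h hv).1 j
    rw [← sub_eq_zero.1 h3, norm_one] at h4
    have h5 : (1 : ℝ) < √(norm v : ℝ) := by
      rw [Real.lt_sqrt zero_le_one]
      linarith
    linarith
  rw [h1]
  positivity

theorem log_product (hg : 1 ≤ g) (h : IsWeil X g S α) (y : ℝ) :
    Real.log (product X g S y) = LP (NS S) (aD 1 S α) y := by
  classical
  have E := (frob h).sys (by omega)
  have hfin : (upTo S y).Finite := by
    have h1 := (E.fin_le y).image Subtype.val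
    refine h1.subset fun v hv => ?_
    exact ⟨⟨v, hv.1⟩, hv.2, rfl⟩
  have h2 : product X g S y = ∏ v ∈ hfin.toFinset, points X v / (norm v : ℝ) ^ g :=
    finprod_mem_eq_finite_toFinset_prod _ hfin
  rw [h2, Real.log_prod]
  · rw [lp_eq E]
    refine Finset.sum_bij' (i := fun v hv => ⟨v, ((Set.Finite.mem_toFinset _).1 hv).1⟩)
      (j := fun v _ => v.1) ?_ ?_ ?_ ?_ ?_
    · intro v hv
      rw [Set.Finite.mem_toFinset] at hv ⊢
      exact hv.2
    · intro v hv
      rw [Set.Finite.mem_toFinset] at hv ⊢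
      exact ⟨v.2, hv⟩
    · intro v hv
      rfl
    · intro v hv
      rfl
    · intro v hv
      exact (cv_eq h ⟨v, ((Set.Finite.mem_toFinset _).1 hv).1⟩).symm
  · intro v hv
    rw [Set.Finite.mem_toFinset] at hv
    exact (points_pos h hv.1).ne'

theorem three : (1 : ℝ) + 1 / 2 = 3 / 2 := by norm_num

theorem mh (hg : 1 ≤ g) (h : IsWeil X g S α) (hF : IsLSeries S α F) :
    Mh (NS S) (aD 1 S α) (fun s => F (1 + s)) 0 := by
  have h1 := var_mh (c := 1) (frob h) (by omega) one_eq.symm hF.diff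
    (by simpa only [Complex.ofReal_one] using hF.one)
    (fun s hs => hF.prod s (by rwa [three] at hs))
  simpa only [Complex.ofReal_one] using h1

theorem noZeros_iff (F : ℂ → ℂ) : NoZeros F ↔ ∀ s : ℂ, 0 < s.re → F (1 + s) ≠ 0 := by
  constructor
  · intro h s hs
    exact h _ (by rw [Complex.add_re, Complex.one_re]; linarith)
  · intro h s hs
    have := h (s - 1) (by rw [Complex.sub_re, Complex.one_re]; linarith)
    rwa [add_sub_cancel] at this

theorem law_one (hg1 : 1 ≤ g) (h : IsWeil X g S α) (hF : IsLSeries S α F) (hg : PolyGrowth F)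
    (h0 : NoZeros F) {r : ℕ} (hr : analyticOrderAt F 1 = r) :
    Law fun y => |dev (NS S) (aD 1 S α) (r : ℝ) y| := by
  obtain ⟨η, C, κ, hη, hg⟩ := hg
  have Hc := var_mc (c := 1) (frob h) (by omega) one_eq.symm hη (fun s hs => (hg s hs).1)
    (fun s hs => (hg s hs).2) (fun s hs => hF.prod s (by rwa [three] at hs))
  simp only [Complex.ofReal_one] at Hc
  have h1 := (law_of Hc ((order_shiftC hF.one r).2 hr) ((noZeros_iff F).1 h0)).1
  simpa only [Nat.cast_zero, sub_zero] using h1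

end translation

variable {ι : Type} [Fintype ι] {K : ι → Type} [∀ i, Field (K i)] [∀ i, NumberField (K i)]
  {n g : ι → ℕ} {A : ∀ i, Set (MvPolynomial (Fin (n i)) (𝓞 (K i)))}
  {S : ∀ i, Finset (HeightOneSpectrum (𝓞 (K i)))}
  {α : ∀ i, HeightOneSpectrum (𝓞 (K i)) → Fin (2 * g i) → ℂ} {F : ι → ℂ → ℂ} {w : ι → ℝ}

theorem LogP_eq (hg : ∀ i, 1 ≤ g i) (hA : ∀ i, IsWeil (A i) (g i) (S i) (α i)) (y : ℝ) :
    LogP A g S w y = LW w (fun i => NS (S i)) (fun i => aD 1 (S i) (α i)) y := by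
  unfold LogP LW
  exact Finset.sum_congr rfl fun i _ => by rw [log_product (hg i) (hA i)]

theorem mean_iff (hg : ∀ i, 1 ≤ g i) (hA : ∀ i, IsWeil (A i) (g i) (S i) (α i)) (ρ : ℝ) :
    MeanLaw A g S w ρ ↔
      Law fun y => |devW w (fun i => NS (S i)) (fun i => aD 1 (S i) (α i)) ρ y| := by
  unfold MeanLaw Law devW
  simp only [LogP_eq hg hA]

theorem upper_iff (hg : ∀ i, 1 ≤ g i) (hA : ∀ i, IsWeil (A i) (g i) (S i) (α i)) (ρ : ℝ) :
    UpperLaw A g S w ρ ↔
      Law fun y => max (devW w (fun i => NS (S i)) (fun i => aD 1 (S i) (α i)) ρ y) 0 := by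
  unfold UpperLaw Law devW
  simp only [LogP_eq hg hA]

theorem wt_eq (s : ℂ) : Pool.Agent.H21.RC.mult w (fun i s => F i (1 + s)) s = wt F w (1 + s) := by
  unfold Pool.Agent.H21.RC.mult wt
  exact Finset.sum_congr rfl fun i _ => by rw [nat_shiftC]

theorem wt_zero (h : ∀ s : ℂ, 0 < s.re → Pool.Agent.H21.RC.mult w (fun i s => F i (1 + s)) s = 0)
    (s : ℂ) (hs : 1 < s.re) : wt F w s = 0 := by
  have h1 := h (s - 1) (by rw [Complex.sub_re, Complex.one_re]; linarith)
  rwa [wt_eq, add_sub_cancel] at h1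

/-- **One law for one product and the rank conjecture for all the abelian varieties.** -/
theorem result {ι : Type} [Fintype ι] (K : ι → Type) [∀ i, Field (K i)] [∀ i, NumberField (K i)]
    (n g : ι → ℕ) (hg : ∀ i, 1 ≤ g i) (A : ∀ i, Set (MvPolynomial (Fin (n i)) (𝓞 (K i))))
    (S : ∀ i, Finset (HeightOneSpectrum (𝓞 (K i))))
    (α : ∀ i, HeightOneSpectrum (𝓞 (K i)) → Fin (2 * g i) → ℂ)
    (hA : ∀ i, IsWeil (A i) (g i) (S i) (α i)) (F : ι → ℂ → ℂ)
    (hF : ∀ i, IsLSeries (S i) (α i) (F i)) :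
    ∃ r : ι → ℕ, (∀ i, analyticOrderAt (F i) 1 = r i) ∧
      (∀ (w : ι → ℝ) (ρ : ℝ), MeanLaw A g S w ρ →
        (∀ s : ℂ, 1 < s.re → wt F w s = 0) ∧ ∑ i, w i * r i = ρ) ∧
      (∀ (w : ι → ℝ) (ρ : ℝ), (∀ x : ℝ, 1 < x → 0 ≤ wt F w x) → UpperLaw A g S w ρ →
        (∀ s : ℂ, 1 < s.re → wt F w s = 0) ∧ ∑ i, w i * r i ≤ ρ) ∧
      (∀ w : ι → ℝ, LinearIndependent ℚ w → ∀ R : ι → ℕ,
        (MeanLaw A g S w (∑ i, w i * R i) →
          ∀ i, analyticOrderAt (F i) 1 = (R i : ℕ∞) ∧ NoZeros (F i)) ∧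
        ((∀ i, PolyGrowth (F i)) →
          (MeanLaw A g S w (∑ i, w i * R i) ↔
            ∀ i, analyticOrderAt (F i) 1 = (R i : ℕ∞) ∧ NoZeros (F i)))) ∧
      ∀ (i j : ι) (ρ : ℝ), (∃ B : ℝ, ∀ᶠ Y : ℝ in atTop, ∫ y in Real.exp 1..Y,
          |Real.log (product (A i) (g i) (S i) y) - Real.log (product (A j) (g j) (S j) y) -
            ρ * Real.log (Real.log y)| / y ≤ B * Real.log Y) →
        (r i : ℝ) - r j = ρ ∧
        ∀ s : ℂ, 1 < s.re → analyticOrderNatAt (F i) s = analyticOrderNatAt (F j) s := by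
  have H : ∀ i, Mh (NS (S i)) (aD 1 (S i) (α i)) (fun s => F i (1 + s)) 0 := fun i =>
    mh (hg i) (hA i) (hF i)
  choose e g' r he hr Q using fun i => (H i).hy
  have hr' : ∀ i, analyticOrderAt (F i) 1 = r i := fun i => (order_shiftC (hF i).one (r i)).1 (hr i)
  have both : ∀ (w : ι → ℝ) (ρ : ℝ), MeanLaw A g S w ρ →
      (∀ s : ℂ, 0 < s.re → Pool.Agent.H21.RC.mult w (fun i s => F i (1 + s)) s = 0) ∧
        ∑ i, w i * r i = ρ := fun w ρ h => sys_both H hr ((mean_iff hg hA ρ).1 h)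
  have ind : ∀ w : ι → ℝ, LinearIndependent ℚ w → ∀ ρ : ℝ, MeanLaw A g S w ρ →
      ∀ i, NoZeros (F i) := by
    intro w hw ρ h i
    rw [noZeros_iff]
    intro s hs
    exact indep_sys H hr hw hs ((both w ρ h).1 s hs) i
  have all : ∀ w : ι → ℝ, LinearIndependent ℚ w → ∀ R : ι → ℕ, MeanLaw A g S w (∑ i, w i * R i) →
        ∀ i, analyticOrderAt (F i) 1 = (R i : ℕ∞) ∧ NoZeros (F i) := by
    intro w hw R h i
    refine ⟨?_, ind w hw _ h i⟩
    have h1 : r = R := indep_nat hw (both w _ h).2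
    rw [hr' i, h1]
  have conv : ∀ w : ι → ℝ, (∀ i, PolyGrowth (F i)) → (∀ i, NoZeros (F i)) →
      MeanLaw A g S w (∑ i, w i * r i) := fun w hp h =>
    (mean_iff hg hA _).2 (law_sum (fun i => (H i).E) fun i =>
      law_one (hg i) (hA i) (hF i) (hp i) (h i) (hr' i))
  refine ⟨r, hr', fun w ρ h => ⟨wt_zero (both w ρ h).1, (both w ρ h).2⟩, fun w ρ hsg h => ?_,
    fun w hw R => ⟨all w hw R, fun hp => ⟨all w hw R, fun h => ?_⟩⟩, fun i j ρ h => ?_⟩
  · obtain ⟨h1, h2⟩ := sys_upper H hr ((upper_iff hg hA ρ).1 h) (fun x hx => by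
      rw [wt_eq]
      have := hsg (1 + x) (by linarith)
      push_cast at this
      exact this)
    exact ⟨wt_zero h1, h2⟩
  · have h1 : r = R := by
      funext i
      have h2 := (h i).1
      rw [hr' i] at h2
      exact_mod_cast h2
    have h3 := conv w hp fun i => (h i).2
    rw [h1] at h3
    exact h3
  · classical
    set w : ι → ℝ := fun k => (if k = i then 1 else 0) - (if k = j then 1 else 0) with hw
    have hsum : ∀ g : ι → ℝ, ∑ k, w k * g k = g i - g j := by
      intro g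
      simp only [hw, sub_mul, ite_mul, one_mul, zero_mul, Finset.sum_sub_distrib,
        Finset.sum_ite_eq', Finset.mem_univ, if_true]
    have h1 : MeanLaw A g S w ρ := by
      unfold MeanLaw LogP
      have e : ∀ y : ℝ, ∑ k, w k * Real.log (product (A k) (g k) (S k) y) =
          Real.log (product (A i) (g i) (S i) y) - Real.log (product (A j) (g j) (S j) y) :=
        fun y => hsum _
      simp only [e]
      exact h
    obtain ⟨h2, h3⟩ := both w _ h1
    rw [hsum fun k => (r k : ℝ)] at h3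
    refine ⟨h3, fun s hs => ?_⟩
    have h4 := wt_zero h2 s hs
    unfold wt at h4
    rw [hsum fun k => (analyticOrderNatAt (F k) s : ℝ), sub_eq_zero] at h4
    exact_mod_cast h4

end Pool.Agent.Results.MP_1d384c_nt.OneLawManyVarieties
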