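import Pool.Agent.H26.K4.Tower
import Pool.Agent.H67.BS.Mod
import Pool.Agent.H67.BS.Frob

/-!
# The rank conjecture of Birch and Swinnerton-Dyer for abelian varieties over number fields: the fields
without automorphisms and with at most one small prime suffice

For every number field `K` and every bound `X₀` there are finitely many number fields `F ⊇ K`, which have
no automorphism but the identity AND at most one prime ideal of norm `≤ X₀`, and integers `a_F`, such that
for ALL abelian varieties `A` over `K`

`rank A(K) = ∑ a_F rank A(F)`, `ord_{s=1} L(A/K, s) = ∑ a_F ord_{s=1} L(A/F, s)`,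

the second as soon as the `L(A/F, s)` have meromorphic continuations, and then `L(A/K, s)` has one.
So if for some bound `X₀` the rank conjecture (with the continuation) holds for `A` over all number fields
`F ⊇ K` which have no automorphisms and at most one prime ideal of norm `≤ X₀`, then it holds for `A` over
`K` and over all number fields `F ⊇ K`.

The field theoretic input is a relation with coefficient `1`: the trivial character of the absolute
Galois group of `K` is an integral linear combination of the permutation characters of finitely many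
such fields (`Pool.Agent.H46.SP`, `Pool.Agent.H26.K4`).
-/

set_option autoImplicit false

namespace Pool.Agent.Results.MP_1d384c_nt.RigidOneSmallPrime

open NumberField IsDedekindDomain Polynomial

/-- The identity is the only automorphism of the field `F`. -/
def NoAutomorphisms (F : Type) [Field F] : Prop :=
  ∀ (τ : F ≃+* F) (x : F), τ x = x

/-- The number field `F` has at most one prime ideal of norm `≤ X₀`. -/
def AtMostOneSmallPrime (X₀ : ℕ) (F : Type) [Field F] [NumberField F] : Prop :=
  ∀ w w' : HeightOneSpectrum (𝓞 F),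
    Ideal.absNorm w.asIdeal ≤ X₀ → Ideal.absNorm w'.asIdeal ≤ X₀ → w = w'

/-- The number of the `K`-embeddings of `F` in the algebraic closure of `K` which are fixed by `σ`. -/
noncomputable def fixedEmbeddings (K F : Type) [Field K] [Field F] [Algebra K F]
    (σ : Gal(AlgebraicClosure K/K)) : ℕ :=
  Nat.card {i : F →ₐ[K] AlgebraicClosure K // ∀ x, σ (i x) = i x}

section points

variable {K : Type} [Field K] {n : ℕ} (A : Set (MvPolynomial (Fin n) (𝓞 K)))

/-- The nonzero vectors over the algebraic closure of `K` that satisfy the equations `A`. -/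
def Solutions : Type :=
  {u : Fin n → AlgebraicClosure K // u ≠ 0 ∧ ∀ f ∈ A,
    MvPolynomial.eval₂ ((algebraMap K (AlgebraicClosure K)).comp (algebraMap (𝓞 K) K)) u f = 0}

/-- Two vectors are proportional. -/
def proportional : Setoid (Solutions A) where
  r u v := ∃ c : AlgebraicClosure K, c ≠ 0 ∧ v.1 = c • u.1
  iseqv := by
    refine ⟨fun u => ⟨1, one_ne_zero, (one_smul _ _).symm⟩, ?_, ?_⟩
    · rintro u v ⟨c, hc, h⟩
      exact ⟨c⁻¹, inv_ne_zero hc, by rw [h, smul_smul, inv_mul_cancel₀ hc, one_smul]⟩
    · rintro u v w ⟨c, hc, h⟩ ⟨c', hc', h'⟩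
      exact ⟨c' * c, mul_ne_zero hc' hc, by rw [h', h, smul_smul]⟩

/-- The points of the projective variety `A` over the algebraic closure of `K`: the solutions of the
equations in homogeneous coordinates. -/
def Points : Type := Quotient (proportional A)

variable {A}

/-- An automorphism of the algebraic closure, applied to the coordinates. -/
noncomputable def conj (σ : Gal(AlgebraicClosure K/K)) (u : Solutions A) : Solutions A :=
  ⟨fun k => σ (u.1 k), by
    refine ⟨fun h => u.2.1 (funext fun k => ?_), fun f hf => ?_⟩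
    · have h1 := congrFun h k
      exact (map_eq_zero_iff σ σ.injective).1 h1
    · have h1 := congrArg σ (u.2.2 f hf)
      rw [map_zero] at h1
      have h2 := MvPolynomial.hom_eval₂ f
        ((algebraMap K (AlgebraicClosure K)).comp (algebraMap (𝓞 K) K))
        (σ : AlgebraicClosure K →+* AlgebraicClosure K) u.1
      have h3 : (σ : AlgebraicClosure K →+* AlgebraicClosure K).comp
          ((algebraMap K (AlgebraicClosure K)).comp (algebraMap (𝓞 K) K)) =
          (algebraMap K (AlgebraicClosure K)).comp (algebraMap (𝓞 K) K) :=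
        RingHom.ext fun x => σ.commutes _
      rw [h3] at h2
      exact h2.symm.trans h1⟩

/-- The Galois group acts on the points through the coordinates. -/
noncomputable instance : MulAction Gal(AlgebraicClosure K/K) (Points A) where
  smul σ := Quotient.map (conj σ) (by
    rintro u v ⟨c, hc, h⟩
    refine ⟨σ c, (map_ne_zero_iff σ σ.injective).2 hc, funext fun k => ?_⟩
    change σ (v.1 k) = σ c * σ (u.1 k)
    rw [h, ← map_mul]
    rfl)
  one_smul x := by
    induction x using Quotient.inductionOn with
    | h u => rfl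
  mul_smul σ τ x := by
    induction x using Quotient.inductionOn with
    | h u => rfl

variable (A)

/-- The points over the field `N`, those fixed by all automorphisms over `N`. -/
def pointsOver (N : IntermediateField K (AlgebraicClosure K)) : Set (Points A) :=
  {x | ∀ σ : Gal(AlgebraicClosure K/K), (∀ y ∈ N, σ y = y) → σ • x = x}

end points

/-- Abelian varieties `A` of dimension `g ≥ 1` over the number field `K`. Only the following properties
are used: `A` is given by homogeneous equations over `𝓞_K` in the projective space of dimension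
`n - 1`; the points over the algebraic closure form an abelian group; the Galois group acts on it by
automorphisms; the points over finite extensions `N` of `K` form a finitely generated group (the
theorem of Mordell and Weil). -/
structure AbelianVariety (K : Type) [Field K] [NumberField K] where
  g : ℕ
  one_le_g : 1 ≤ g
  n : ℕ
  equations : Set (MvPolynomial (Fin n) (𝓞 K))
  homogeneous : ∀ f ∈ equations, ∃ d, f.IsHomogeneous d
  group : AddCommGroup (Points equations)
  galois : ∀ (σ : Gal(AlgebraicClosure K/K)) (x y : Points equations),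
    σ • (x + y) = σ • x + σ • y
  mordell_weil : ∀ N : IntermediateField K (AlgebraicClosure K), FiniteDimensional K N →
    ∃ S : Finset (Points equations),
      (AddSubgroup.closure (S : Set (Points equations)) : Set (Points equations)) =
        pointsOver equations N

section variety

variable {K : Type} [Field K] [NumberField K] (A : AbelianVariety K)

instance : AddCommGroup (Points A.equations) := A.group

noncomputable instance : DistribMulAction Gal(AlgebraicClosure K/K) (Points A.equations) where
  smul_add := A.galois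
  smul_zero σ := by
    have h := A.galois σ 0 0
    rw [add_zero] at h
    exact left_eq_add.1 h

/-- The group `A(N)`. -/
noncomputable def group (N : IntermediateField K (AlgebraicClosure K)) :
    AddSubgroup (Points A.equations) :=
  Pool.Agent.H67.BS.pts (Points A.equations) N

/-- The rank of the group `A(F)`, for a number field `F ⊇ K`. -/
noncomputable def rank (F : Type) [Field F] [NumberField F] [Algebra K F] : ℕ :=
  Module.finrank ℤ (group A (IsAlgClosed.lift : F →ₐ[K] AlgebraicClosure K).fieldRange)

/-- For a homomorphism from `𝓞_K` to the finite field `κ` with `q` elements, this is `(q - 1)` times the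
number of points of (the reduction of) `A` over `κ`. -/
noncomputable def cone {κ : Type} [Field κ] (φ : 𝓞 K →+* κ) : ℕ :=
  Nat.card {u : Fin A.n → κ // u ≠ 0 ∧ ∀ f ∈ A.equations, MvPolynomial.eval₂ φ u f = 0}

/-- `A` has good reduction at the prime `v` of `F ⊇ K`, and the `α_j` are the eigenvalues of Frobenius on
`H^1`: they are of absolute value `√q`, `q` the norm of `v`, and `A` has `∏ (1 - α_j^e)` points over the
extension of degree `e` of the residue field, for all `e`. -/
def IsFrobenius {F : Type} [Field F] [NumberField F] [Algebra K F] (v : HeightOneSpectrum (𝓞 F))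
    (α : Fin (2 * A.g) → ℂ) : Prop :=
  (∀ j, ‖α j‖ = Real.sqrt (Ideal.absNorm v.asIdeal)) ∧
  ∀ (κ : Type) [Field κ] [Finite κ] (φ : 𝓞 F →+* κ) (e : ℕ), RingHom.ker φ = v.asIdeal →
    Nat.card κ = Ideal.absNorm v.asIdeal ^ e →
      (cone A (φ.comp (algebraMap (𝓞 K) (𝓞 F))) : ℂ) =
        ((Ideal.absNorm v.asIdeal : ℂ) ^ e - 1) * ∏ j, (1 - α j ^ e)

/-- The polynomials `B v` are the Euler factors of `L(A/F, s)`: `B_v(T) = ∏ (1 - α_j T)` at almost all
primes `v` of `F`; at the other primes `B_v` may be any polynomial with `B_v(0) = 1` and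
`B_v(q^{-1}) ≠ 0`, `q` the norm of `v` (so the condition holds for the right Euler factors). -/
def EulerFactors {F : Type} [Field F] [NumberField F] [Algebra K F]
    (B : HeightOneSpectrum (𝓞 F) → ℂ[X]) : Prop :=
  (∀ᶠ v in Filter.cofinite, ∃ α : Fin (2 * A.g) → ℂ, IsFrobenius A v α ∧
    ∀ z : ℂ, (B v).eval z = ∏ j, (1 - α j * z)) ∧
  ∀ v, (B v).eval 0 = 1 ∧ (B v).eval ((Ideal.absNorm v.asIdeal : ℂ)⁻¹) ≠ 0

end variety

/-- The Euler product `L(A/F, s) = ∏_v B_v(q_v^{-s})⁻¹`. -/
noncomputable def LSeries {F : Type} [Field F] [NumberField F]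
    (B : HeightOneSpectrum (𝓞 F) → ℂ[X]) (s : ℂ) : ℂ :=
  ∏' v : HeightOneSpectrum (𝓞 F), ((B v).eval ((Ideal.absNorm v.asIdeal : ℂ) ^ (-s)))⁻¹

/-- A region for the continuation: a connected set which contains `1` and a right half plane; for
instance the whole plane. -/
def IsRegion (Ω : Set ℂ) : Prop :=
  IsPreconnected Ω ∧ (1 : ℂ) ∈ Ω ∧ ∃ c : ℝ, ∀ s : ℂ, c < s.re → s ∈ Ω

/-- `Λ` is a meromorphic continuation of the Euler product to `Ω`. -/
def IsContinuation (Ω : Set ℂ) {F : Type} [Field F] [NumberField F]
    (B : HeightOneSpectrum (𝓞 F) → ℂ[X]) (Λ : ℂ → ℂ) : Prop :=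
  MeromorphicOn Λ Ω ∧ ∃ c : ℝ, ∀ s : ℂ, c < s.re → Λ s = LSeries B s

/-- The rank conjecture for `A` over `F`, with the continuation: the L-function has a meromorphic
continuation to `Ω`, and the order of every such continuation at `s = 1` is the rank of `A(F)`. -/
def RankFormula {K : Type} [Field K] [NumberField K] (A : AbelianVariety K) (Ω : Set ℂ) {F : Type}
    [Field F] [NumberField F] [Algebra K F] (B : HeightOneSpectrum (𝓞 F) → ℂ[X]) : Prop :=
  (∃ Λ : ℂ → ℂ, IsContinuation Ω B Λ) ∧
    ∀ Λ : ℂ → ℂ, IsContinuation Ω B Λ → meromorphicOrderAt Λ 1 = ((rank A F : ℤ) : WithTop ℤ)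

/-- For the number fields `F_j ⊇ K` and the integers `a_j`: `rank A(K) = ∑ a_j rank A(F_j)`; and if the
`L(A/F_j, s)` have continuations `Λ_j`, then `L(A/K, s)` has one, the orders `r_j` of the `Λ_j` at
`s = 1` are finite, and the order of every continuation of `L(A/K, s)` at `s = 1` is `∑ a_j r_j`. -/
def RankAndOrderRelation {K : Type} [Field K] [NumberField K] {ι : Type} [Fintype ι] (F : ι → Type)
    [∀ j, Field (F j)] [∀ j, NumberField (F j)] [∀ j, Algebra K (F j)] (a : ι → ℤ)
    (A : AbelianVariety K) : Prop :=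
  (rank A K : ℤ) = ∑ j, a j * (rank A (F j) : ℤ) ∧
  ∀ Ω : Set ℂ, IsRegion Ω →
    ∀ B₀ : HeightOneSpectrum (𝓞 K) → ℂ[X], EulerFactors A B₀ →
    ∀ B : (j : ι) → HeightOneSpectrum (𝓞 (F j)) → ℂ[X], (∀ j, EulerFactors A (B j)) →
    ∀ Λ : ι → ℂ → ℂ, (∀ j, IsContinuation Ω (B j) (Λ j)) →
      (∃ Λ₀ : ℂ → ℂ, IsContinuation Ω B₀ Λ₀) ∧
      ∃ r : ι → ℤ, (∀ j, meromorphicOrderAt (Λ j) 1 = (r j : WithTop ℤ)) ∧
        ∀ Λ₀ : ℂ → ℂ, IsContinuation Ω B₀ Λ₀ →
          meromorphicOrderAt Λ₀ 1 = ((∑ j, a j * r j : ℤ) : WithTop ℤ)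

section Aux

open Pool.Agent.Q5.VL Pool.Agent.Q5.BR Pool.Agent.W353.NF
open Pool.Agent.W401.Cheb (GK)

variable {K : Type} [Field K] [NumberField K]

theorem es_of {A : AbelianVariety K} {F : Type} [Field F] [NumberField F] [Algebra K F]
    {B : HeightOneSpectrum (𝓞 F) → ℂ[X]} (hB : EulerFactors A B) :
    ES A.equations A.g 1 (2 * A.g) 1 B := by
  refine ⟨⟨?_, fun v => (hB.2 v).1⟩, fun v => ?_⟩
  · filter_upwards [hB.1] with v hv
    obtain ⟨α, h1, h2⟩ := hv
    exact ⟨α, Pool.Agent.H67.BS.frob_of_abelian A.equations A.g v h1.1 h1.2, h2⟩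
  · have h1 := (hB.2 v).2
    unfold ev
    rwa [Complex.cpow_neg_one]

theorem smooth (A : AbelianVariety K) : Pool.Agent.H67.BS.Smooth (K := K) (Points A.equations) := by
  intro x
  induction x using Quotient.inductionOn with
  | h u =>
    refine ⟨IntermediateField.adjoin K (Set.range u.1), ?_, ?_⟩
    · exact IntermediateField.finiteDimensional_adjoin fun x _ => Algebra.IsIntegral.isIntegral x
    · intro σ hσ
      change (Quotient.mk _ (conj σ u) : Points A.equations) = Quotient.mk _ u
      congr 1
      exact Subtype.ext (funext fun k => hσ _ (IntermediateField.subset_adjoin K _ ⟨k, rfl⟩))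

theorem mw (A : AbelianVariety K) (N : IntermediateField K (AlgebraicClosure K))
    (hN : FiniteDimensional K N) : Module.Finite ℤ (group A N) := by
  obtain ⟨S, hS⟩ := A.mordell_weil N hN
  have h1 : AddSubgroup.closure (S : Set (Points A.equations)) = group A N := by
    apply SetLike.coe_injective
    exact hS
  rw [Module.Finite.iff_addGroup_fg, ← h1]
  exact AddGroup.closure_finset_fg S

theorem hV (A : AbelianVariety K) (N : IntermediateField K (AlgebraicClosure K))
    (hN : FiniteDimensional K N) :
    FiniteDimensional ℚ (fixV (Pool.Agent.H67.BS.rho (K := K) (Points A.equations)) N.val) := by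
  refine Pool.Agent.H67.BS.finite_fix (smooth A) N.val ?_
  rw [IntermediateField.fieldRange_val]
  exact mw A N hN

theorem rank_eq (A : AbelianVariety K) (F : Type) [Field F] [NumberField F] [Algebra K F] :
    rk (Pool.Agent.H67.BS.rho (K := K) (Points A.equations)) F = rank A F :=
  Pool.Agent.H67.BS.finrank_fix (smooth A) _

theorem rank_step (A : AbelianVariety K) {F : Type} [Field F] [NumberField F] [Algebra K F]
    {ι : Type} [Fintype ι] {Y : ι → Ext F} [∀ j, Algebra K (Y j).F]
    [∀ j, IsScalarTower K F (Y j).F] {a : ι → ℤ}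
    (h : ∀ τ : GK F, ∑ j, a j * (fixn F (Y j).F τ : ℤ) = 1) :
    (rank A F : ℤ) = ∑ j, a j * (rank A (Y j).F : ℤ) := by
  have h1 := rank_relation_up (Pool.Agent.H67.BS.rho (K := K) (Points A.equations)) h
    fun N hN => hV A N hN
  rw [rank_eq, one_mul] at h1
  rw [← h1]
  exact Finset.sum_congr rfl fun j _ => by rw [rank_eq]

theorem powO_of {A : AbelianVariety K} {Ω : Set ℂ} (hΩ : IsRegion Ω) {F : Type} [Field F]
    [NumberField F] [Algebra K F] {B : HeightOneSpectrum (𝓞 F) → ℂ[X]} (hB : EulerFactors A B)
    {Λ : ℂ → ℂ} (hΛ : IsContinuation Ω B Λ) :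
    ∃ r : ℤ, meromorphicOrderAt Λ 1 = (r : WithTop ℤ) ∧ PowO Ω 1 B 1 r := by
  obtain ⟨r, hr⟩ := Pool.Agent.H67.BS.order_finite hΩ (es_of hB).1 hΛ.1 hΛ.2
  refine ⟨r, hr, Λ, hΛ.1, ?_, hr⟩
  obtain ⟨c, hc⟩ := hΛ.2
  exact ⟨c, fun s hs => by rw [hc s hs, zpow_one]; rfl⟩

theorem of_powO {Ω : Set ℂ} (hΩ : IsRegion Ω) {F : Type} [Field F]
    [NumberField F] {B : HeightOneSpectrum (𝓞 F) → ℂ[X]} {r : ℤ}
    (h : PowO Ω 1 B 1 r) : (∃ Λ : ℂ → ℂ, IsContinuation Ω B Λ) ∧
      ∀ Λ : ℂ → ℂ, IsContinuation Ω B Λ → meromorphicOrderAt Λ 1 = (r : WithTop ℤ) := by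
  refine ⟨?_, fun Λ hΛ => ?_⟩
  · obtain ⟨f, hf, ⟨c, hc⟩, -⟩ := h
    exact ⟨f, hf, c, fun s hs => by rw [hc s hs, zpow_one]; rfl⟩
  · refine PowO.order hΩ (m := 1) one_ne_zero ?_ hΛ.1 hΛ.2
    rw [Nat.cast_one, one_mul]
    exact h

end Aux

/-- **The rank conjecture for abelian varieties: fields without automorphisms and with at most one
small prime suffice.**

1. For every number field `K` and every `X₀` there are finitely many number fields `F_j ⊇ K` and integers
`a_j`, such that every `F_j` has no automorphism but the identity and at most one prime ideal of norm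
`≤ X₀`, the number of the embeddings of `F_j` fixed by `σ`, multiplied by `a_j` and summed over `j`, is
`1` for all `σ` in the Galois group of `K`, and for ALL abelian varieties `A` over `K`:
`rank A(K) = ∑ a_j rank A(F_j)`; and if the `L(A/F_j, s)` have meromorphic continuations to a region
`Ω`, then so has `L(A/K, s)`, and `ord_{s=1} L(A/K, s) = ∑ a_j ord_{s=1} L(A/F_j, s)`.

2. Let `A` be an abelian variety over `K`. If the rank formula holds for `A` over all number fields
`F ⊇ K` without automorphisms and with at most one prime ideal of norm `≤ X₀`, then it holds for `A` over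
all number fields `F ⊇ K`, in particular over `K`. -/
theorem result (K : Type) [Field K] [NumberField K] (X₀ : ℕ) :
    (∃ (ι : Type) (_ : Fintype ι) (F : ι → Type) (_ : ∀ j, Field (F j))
      (_ : ∀ j, NumberField (F j)) (_ : ∀ j, Algebra K (F j)) (a : ι → ℤ),
      (∀ j, NoAutomorphisms (F j) ∧ AtMostOneSmallPrime X₀ (F j)) ∧
      (∀ σ : Gal(AlgebraicClosure K/K), ∑ j, a j * (fixedEmbeddings K (F j) σ : ℤ) = 1) ∧
      ∀ A : AbelianVariety K, RankAndOrderRelation F a A) ∧
    ∀ (A : AbelianVariety K) (Ω : Set ℂ), IsRegion Ω →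
      (∀ (F : Type) [Field F] [NumberField F] [Algebra K F], NoAutomorphisms F →
        AtMostOneSmallPrime X₀ F →
          ∃ B : HeightOneSpectrum (𝓞 F) → ℂ[X], EulerFactors A B ∧ RankFormula A Ω B) →
      ∀ (F : Type) [Field F] [NumberField F] [Algebra K F] (B : HeightOneSpectrum (𝓞 F) → ℂ[X]),
        EulerFactors A B → RankFormula A Ω B := by
  refine ⟨?_, ?_⟩
  · obtain ⟨ι, _, Y, a, h1, h2, h3⟩ := Pool.Agent.H26.K4.rigid_small_relation K X₀
    refine ⟨ι, inferInstance, fun j => (Y j).F, inferInstance, inferInstance, inferInstance, a,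
      fun j => ⟨h1 j, h2 j⟩, fun σ => ?_, fun A => ⟨rank_step A h3, ?_⟩⟩
    · rw [← h3 σ]
      refine Finset.sum_congr rfl fun j _ => ?_
      congr 2
      unfold fixedEmbeddings Pool.Agent.W353.NF.fixn
      refine Nat.card_congr (Equiv.subtypeEquivRight fun i => ?_)
      rw [Pool.Agent.W353.NF.act_apply]
      constructor
      · intro h
        exact AlgHom.ext h
      · intro h x
        exact congrArg (fun z : (Y j).F →ₐ[K] AlgebraicClosure K => z x) h
    · intro Ω hΩ B₀ hB₀ B hB Λ hΛ
      choose r hr hr' using fun j => powO_of hΩ (hB j) (hΛ j)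
      have hi : 1 ≤ 2 * A.g := by
        have := A.one_le_g
        omega
      have h4 := Pool.Agent.H67.BS.powO_step hi hΩ h3 (es_of hB₀) (fun j => es_of (hB j)) hr'
      obtain ⟨h5, h6⟩ := of_powO hΩ h4
      exact ⟨h5, r, hr, h6⟩
  · intro A Ω hΩ hyp F _ _ _ B₀ hB₀
    obtain ⟨ι, _, Y, a, h1, h2, h3⟩ := Pool.Agent.H26.K4.rigid_small_relation F X₀
    let _ : ∀ j, Algebra K (Y j).F := fun j =>
      ((algebraMap F (Y j).F).comp (algebraMap K F)).toAlgebra
    have : ∀ j, IsScalarTower K F (Y j).F := fun j =>
      IsScalarTower.of_algebraMap_eq fun x => rfl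
    choose B hB hB' using fun j => hyp (Y j).F (h1 j) (h2 j)
    choose Λ hΛ using fun j => (hB' j).1
    choose r hr hr' using fun j => powO_of hΩ (hB j) (hΛ j)
    have hi : 1 ≤ 2 * A.g := by
      have := A.one_le_g
      omega
    have h4 := Pool.Agent.H67.BS.powO_step hi hΩ h3 (es_of hB₀) (fun j => es_of (hB j)) hr'
    have h5 : ∀ j, r j = (rank A (Y j).F : ℤ) := fun j => by
      have h6 := (hB' j).2 (Λ j) (hΛ j)
      rw [hr j] at h6
      exact_mod_cast h6
    have h6 : ∑ j, a j * r j = (rank A F : ℤ) := by
      rw [rank_step A h3]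
      exact Finset.sum_congr rfl fun j _ => by rw [h5 j]
    rw [h6] at h4
    exact of_powO hΩ h4

end Pool.Agent.Results.MP_1d384c_nt.RigidOneSmallPrime
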